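import Pool.Agent.Helper91.SY.Goals

/-! # Packet SY-RD: smooth division of a radial function -/

set_option autoImplicit false

open Set Filter Topology MeasureTheory
open scoped ContDiff

namespace Pool.Agent.Helper64.SY

open Pool.Agent.Helper91.SY

/-- Smooth dependence of an integral over `[0,1]` on a parameter. -/
theorem par (E : Type) [NormedAddCommGroup E] [NormedSpace ℝ E] [FiniteDimensional ℝ E] :
    ∀ (n : ℕ) (F : Type) [NormedAddCommGroup F] [NormedSpace ℝ F] (G : ℝ × E → F),
      ContDiff ℝ ∞ G → ContDiff ℝ n (fun x => ∫ t in (0 : ℝ)..1, G (t, x)) := by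
  intro n
  induction n with
  | zero =>
    intro F _ _ G hG
    rw [Nat.cast_zero, contDiff_zero]
    exact intervalIntegral.continuous_parametric_intervalIntegral_of_continuous'
      (f := fun (x : E) (t : ℝ) => G (t, x)) (hG.continuous.comp (by fun_prop)) 0 1
  | succ n ih =>
    intro F _ _ G hG
    have hG' : ContDiff ℝ ∞ (fderiv ℝ G) := hG.fderiv_right le_rfl
    set G1 : ℝ × E → E →L[ℝ] F := fun z =>
      (fderiv ℝ G z).comp (ContinuousLinearMap.inr ℝ ℝ E) with hG1
    have hG1s : ContDiff ℝ ∞ G1 := hG'.clm_comp contDiff_const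
    have e1 : ((n + 1 : ℕ) : WithTop ℕ∞) = (n : WithTop ℕ∞) + 1 := by push_cast; rfl
    rw [e1, contDiff_succ_iff_hasFDerivAt]
    refine ⟨fun x => ∫ t in (0 : ℝ)..1, G1 (t, x), ih _ G1 hG1s, fun x => ?_⟩
    have hcomp : IsCompact ((Icc (0 : ℝ) 1) ×ˢ Metric.closedBall x 1) :=
      isCompact_Icc.prod (isCompact_closedBall x 1)
    obtain ⟨M, hM⟩ := hcomp.exists_bound_of_continuousOn hG1s.continuous.continuousOn
    refine intervalIntegral.hasFDerivAt_integral_of_dominated_of_fderiv_le
      (F := fun x t => G (t, x)) (F' := fun x t => G1 (t, x)) (s := Metric.closedBall x 1)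
      (bound := fun _ => M) (Metric.closedBall_mem_nhds x one_pos) ?_ ?_ ?_ ?_ ?_ ?_
    · exact Eventually.of_forall fun y =>
        (hG.continuous.comp (by fun_prop : Continuous fun t : ℝ => (t, y))).aestronglyMeasurable
    · exact (hG.continuous.comp
        (by fun_prop : Continuous fun t : ℝ => (t, x))).intervalIntegrable _ _
    · exact (hG1s.continuous.comp
        (by fun_prop : Continuous fun t : ℝ => (t, x))).aestronglyMeasurable
    · refine Eventually.of_forall fun t ht y hy => hM (t, y) ⟨?_, hy⟩
      rw [uIoc_of_le zero_le_one] at ht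
      exact ⟨ht.1.le, ht.2⟩
    · exact intervalIntegrable_const
    · refine Eventually.of_forall fun t _ y _ => ?_
      have h1 : HasFDerivAt G (fderiv ℝ G (t, y)) (t, y) :=
        ((hG.differentiable (by simp)) (t, y)).hasFDerivAt
      have h2 : HasFDerivAt (fun z : E => ((t, z) : ℝ × E)) (ContinuousLinearMap.inr ℝ ℝ E) y :=
        hasFDerivAt_prodMk_right t y
      exact h1.comp y h2

theorem par_inf (E : Type) [NormedAddCommGroup E] [NormedSpace ℝ E] [FiniteDimensional ℝ E]
    (G : ℝ × E → ℝ) (hG : ContDiff ℝ ∞ G) :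
    ContDiff ℝ ∞ (fun x => ∫ t in (0 : ℝ)..1, G (t, x)) := by
  rw [contDiff_infty]
  intro n
  exact par E n ℝ G hG

theorem angle (c s : ℝ) (h : c ^ 2 + s ^ 2 = 1) : ∃ θ : ℝ, Real.cos θ = c ∧ Real.sin θ = s := by
  set z : ℂ := ⟨c, s⟩ with hz
  have hn : ‖z‖ = 1 := by
    rw [Complex.norm_def, Complex.normSq_apply]
    rw [show z.re * z.re + z.im * z.im = c ^ 2 + s ^ 2 by simp only [hz]; ring, h, Real.sqrt_one]
  have hz0 : z ≠ 0 := by
    intro h0
    rw [h0] at hn
    simp at hn
  refine ⟨Complex.arg z, ?_, ?_⟩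
  · rw [Complex.cos_arg hz0, hn, div_one]
  · rw [Complex.sin_arg, hn, div_one]

theorem rd_ : StmtRD := by
  intro E _ _ _ a b p q H hP hH hinv haxis
  have hH' : ContDiff ℝ ∞ (fderiv ℝ H) := hH.fderiv_right le_rfl
  have hH'' : ContDiff ℝ ∞ (fderiv ℝ (fderiv ℝ H)) := hH'.fderiv_right le_rfl
  have dH : ∀ x, HasFDerivAt H (fderiv ℝ H x) x := fun x =>
    ((hH.differentiable (by simp)) x).hasFDerivAt
  have dH' : ∀ x, HasFDerivAt (fderiv ℝ H) (fderiv ℝ (fderiv ℝ H) x) x := fun x =>
    ((hH'.differentiable (by simp)) x).hasFDerivAt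
  set G1 : ℝ × E → ℝ := fun z =>
    fderiv ℝ (fderiv ℝ H) (z.2 - ((1 - z.1) * p z.2) • a) a a with hG1
  have hG1s : ContDiff ℝ ∞ G1 := by
    have h1 : ContDiff ℝ ∞ (fun z : ℝ × E => z.2 - ((1 - z.1) * p z.2) • a) := by
      have h2 : ContDiff ℝ ∞ (fun z : ℝ × E => p z.2) := p.contDiff.comp contDiff_snd
      exact contDiff_snd.sub (((contDiff_const.sub contDiff_fst).mul h2).smul contDiff_const)
    exact ((hH''.comp h1).clm_apply contDiff_const).clm_apply contDiff_const
  set k : E → ℝ := fun x => ∫ t in (0 : ℝ)..1, G1 (t, x) with hk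
  have hks : ContDiff ℝ ∞ k := par_inf E G1 hG1s
  set G2 : ℝ × E → ℝ := fun z =>
    z.1 * k (z.2 - ((1 - z.1) * p z.2) • a - ((1 - z.1) * q z.2) • b) with hG2
  have hG2s : ContDiff ℝ ∞ G2 := by
    have h1 : ContDiff ℝ ∞ (fun z : ℝ × E =>
        z.2 - ((1 - z.1) * p z.2) • a - ((1 - z.1) * q z.2) • b) := by
      have h2 : ContDiff ℝ ∞ (fun z : ℝ × E => p z.2) := p.contDiff.comp contDiff_snd
      have h3 : ContDiff ℝ ∞ (fun z : ℝ × E => q z.2) := q.contDiff.comp contDiff_snd
      exact (contDiff_snd.sub (((contDiff_const.sub contDiff_fst).mul h2).smul contDiff_const)).sub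
        (((contDiff_const.sub contDiff_fst).mul h3).smul contDiff_const)
    exact contDiff_fst.mul (hks.comp h1)
  set h : E → ℝ := fun x => ∫ t in (0 : ℝ)..1, G2 (t, x) with hh
  have hhs : ContDiff ℝ ∞ h := par_inf E G2 hG2s
  -- evenness
  have heven : ∀ x, H (x - (2 * p x) • a) = H x := by
    intro x
    by_cases hr : p x ^ 2 + q x ^ 2 = 0
    · have : p x = 0 := by nlinarith [sq_nonneg (p x), sq_nonneg (q x)]
      rw [this]
      simp
    · obtain ⟨θ, hc, hs⟩ := angle ((q x ^ 2 - p x ^ 2) / (p x ^ 2 + q x ^ 2))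
        (2 * p x * q x / (p x ^ 2 + q x ^ 2)) (by
          field_simp
          ring)
      have h1 : Rot a b p q θ x = x - (2 * p x) • a := by
        have e : Rot a b p q θ x = x + (Real.cos θ - 1) • (p x • a + q x • b)
            + Real.sin θ • (p x • b - q x • a) := by
          simp [Rot]
        rw [e, hc, hs]
        have e2 : x + ((q x ^ 2 - p x ^ 2) / (p x ^ 2 + q x ^ 2) - 1) • (p x • a + q x • b)
            + (2 * p x * q x / (p x ^ 2 + q x ^ 2)) • (p x • b - q x • a)
            = x + ((((q x ^ 2 - p x ^ 2) / (p x ^ 2 + q x ^ 2) - 1) * p x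
              - (2 * p x * q x / (p x ^ 2 + q x ^ 2)) * q x) • a
              + (((q x ^ 2 - p x ^ 2) / (p x ^ 2 + q x ^ 2) - 1) * q x
              + (2 * p x * q x / (p x ^ 2 + q x ^ 2)) * p x) • b) := by
          module
        rw [e2]
        have e3 : ((q x ^ 2 - p x ^ 2) / (p x ^ 2 + q x ^ 2) - 1) * p x
              - (2 * p x * q x / (p x ^ 2 + q x ^ 2)) * q x = -(2 * p x) := by
          field_simp
          ring
        have e4 : ((q x ^ 2 - p x ^ 2) / (p x ^ 2 + q x ^ 2) - 1) * q x
              + (2 * p x * q x / (p x ^ 2 + q x ^ 2)) * p x = 0 := by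
          field_simp
          ring
        rw [e3, e4]
        module
      rw [← h1, hinv]
  -- the derivative in the direction `a` vanishes for `p = 0`
  have hline : ∀ (y v : E) (s : ℝ), HasDerivAt (fun s : ℝ => y + s • v) v s := by
    intro y v s
    have := ((hasDerivAt_id s).smul_const v).const_add y
    simpa using this
  have hzero : ∀ y, p y = 0 → fderiv ℝ H y a = 0 := by
    intro y hy
    have h1 : HasDerivAt (fun s : ℝ => H (y + s • a)) (fderiv ℝ H y a) 0 := by
      have h2 := (dH (y + (0 : ℝ) • a)).comp_hasDerivAt (0 : ℝ) (hline y a 0)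
      have e : y + (0 : ℝ) • a = y := by simp
      rw [e] at h2
      exact h2
    have h3 : (fun s : ℝ => H (y + s • a)) = fun s : ℝ => H (y + (-s) • a) := by
      funext s
      have := heven (y + s • a)
      have h4 : p (y + s • a) = s := by simp [hy, hP.pa]
      rw [h4] at this
      rw [← this]
      congr 1
      module
    have h5 : HasDerivAt (fun s : ℝ => H (y + (-s) • a)) (-(fderiv ℝ H y a)) 0 := by
      have h6 : HasDerivAt (fun s : ℝ => -s) (-1) (0 : ℝ) := (hasDerivAt_id (0 : ℝ)).neg
      have h7 : HasDerivAt (fun s : ℝ => H (y + s • a)) (fderiv ℝ H y a) (-0 : ℝ) := by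
        simpa using h1
      have h8 := h7.scomp (0 : ℝ) h6
      have e : (-1 : ℝ) • (fderiv ℝ H y a) = -(fderiv ℝ H y a) := by simp
      rw [e] at h8
      exact h8
    rw [← h3] at h5
    have := h1.unique h5
    linarith
  have hDa : ∀ x, fderiv ℝ H x a = p x * k x := by
    intro x
    have h1 : ∀ t : ℝ, HasDerivAt (fun t : ℝ => fderiv ℝ H (x - ((1 - t) * p x) • a) a)
        (p x * G1 (t, x)) t := by
      intro t
      have h2 : HasDerivAt (fun t : ℝ => x - ((1 - t) * p x) • a) (p x • a) t := by
        have h3 : HasDerivAt (fun t : ℝ => (1 - t) * p x) (-p x) t := by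
          have := ((hasDerivAt_id t).const_sub 1).mul_const (p x)
          simpa using this
        have h4 := (h3.smul_const a).const_sub x
        simpa using h4
      have h3 := (dH' (x - ((1 - t) * p x) • a)).comp_hasDerivAt t h2
      have h4 := h3.clm_apply (hasDerivAt_const t a)
      have h5 : (fderiv ℝ (fderiv ℝ H) (x - ((1 - t) * p x) • a) (p x • a)) a
          + (fderiv ℝ H (x - ((1 - t) * p x) • a)) 0 = p x * G1 (t, x) := by
        simp [hG1]
      rw [← h5]
      exact h4
    have h2 := intervalIntegral.integral_eq_sub_of_hasDerivAt (a := 0) (b := 1)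
      (fun t _ => h1 t)
      ((Continuous.intervalIntegrable (by
        have := hG1s.continuous.comp (by fun_prop : Continuous fun t : ℝ => (t, x))
        exact continuous_const.mul this)) _ _)
    rw [intervalIntegral.integral_const_mul] at h2
    have h3 : fderiv ℝ H (x - ((1 - 0) * p x) • a) a = 0 := by
      apply hzero
      simp [hP.pa]
    rw [h3] at h2
    simp only [hk]
    rw [h2]
    simp
  -- invariance
  have hJ : ∀ x, p x * fderiv ℝ H x b = q x * fderiv ℝ H x a := by
    intro x
    have h1 : HasDerivAt (fun θ : ℝ => Rot a b p q θ x) (p x • b - q x • a) 0 := by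
      have e : (fun θ : ℝ => Rot a b p q θ x) = fun θ : ℝ =>
          x + (Real.cos θ - 1) • (p x • a + q x • b) + Real.sin θ • (p x • b - q x • a) := by
        funext θ
        simp [Rot]
      rw [e]
      have h2 := ((((Real.hasDerivAt_cos 0).sub_const 1).smul_const
        (p x • a + q x • b)).const_add x).add
        ((Real.hasDerivAt_sin 0).smul_const (p x • b - q x • a))
      have e2 : (-Real.sin 0) • (p x • a + q x • b) + Real.cos 0 • (p x • b - q x • a)
          = p x • b - q x • a := by simp
      rw [e2] at h2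
      exact h2
    have h0 : Rot a b p q 0 x = x := by simp [Rot]
    have h2 : HasDerivAt (fun θ : ℝ => H (Rot a b p q θ x)) (fderiv ℝ H x (p x • b - q x • a)) 0 := by
      have h3 := dH (Rot a b p q 0 x)
      have h4 := h3.comp_hasDerivAt (0 : ℝ) h1
      rw [h0] at h4
      exact h4
    have h3 : (fun θ : ℝ => H (Rot a b p q θ x)) = fun _ => H x := by
      funext θ
      exact hinv θ x
    rw [h3] at h2
    have h4 := h2.unique (hasDerivAt_const (0 : ℝ) (H x))
    simp only [map_sub, map_smul, smul_eq_mul] at h4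
    linarith
  have hkc : Continuous k := hks.continuous
  have hDb : ∀ x, fderiv ℝ H x b = q x * k x := by
    intro x
    have h1 : ∀ y, p y ≠ 0 → fderiv ℝ H y b = q y * k y := by
      intro y hy
      have h2 := hJ y
      rw [hDa y] at h2
      have h3 : p y * fderiv ℝ H y b = p y * (q y * k y) := by rw [h2]; ring
      exact mul_left_cancel₀ hy h3
    have h2 : (fun s : ℝ => fderiv ℝ H (x + (s - p x) • a) b) =
        fun s : ℝ => q (x + (s - p x) • a) * k (x + (s - p x) • a) := by
      have hc1 : Continuous fun s : ℝ => x + (s - p x) • a := by fun_prop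
      refine Continuous.ext_on (dense_compl_singleton (0 : ℝ)) ?_ ?_ ?_
      · exact (hH'.continuous.comp hc1).clm_apply continuous_const
      · exact (q.continuous.comp hc1).mul (hkc.comp hc1)
      · intro s hs
        refine h1 _ ?_
        simp only [map_add, map_smul, smul_eq_mul, hP.pa]
        intro h3
        apply hs
        rw [mem_singleton_iff]
        linarith
    have h3 := congrFun h2 (p x)
    simpa using h3
  have hmain : ∀ x, H x = (p x ^ 2 + q x ^ 2) * h x := by
    intro x
    have h1 : ∀ t : ℝ, HasDerivAt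
        (fun t : ℝ => H (x - ((1 - t) * p x) • a - ((1 - t) * q x) • b))
        ((p x ^ 2 + q x ^ 2) * G2 (t, x)) t := by
      intro t
      set y := x - ((1 - t) * p x) • a - ((1 - t) * q x) • b with hy
      have h2 : HasDerivAt (fun t : ℝ => x - ((1 - t) * p x) • a - ((1 - t) * q x) • b)
          (p x • a + q x • b) t := by
        have h3 : ∀ r : ℝ, HasDerivAt (fun t : ℝ => (1 - t) * r) (-r) t := by
          intro r
          have := ((hasDerivAt_id t).const_sub 1).mul_const r
          simpa using this
        have h4 := (((h3 (p x)).smul_const a).const_sub x).sub ((h3 (q x)).smul_const b)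
        have e : -(-p x • a) - -q x • b = p x • a + q x • b := by module
        rw [e] at h4
        exact h4
      have h3 := (dH y).comp_hasDerivAt t h2
      have hpy : p y = t * p x := by
        simp only [hy, map_sub, map_smul, smul_eq_mul, hP.pa, hP.pb]
        ring
      have hqy : q y = t * q x := by
        simp only [hy, map_sub, map_smul, smul_eq_mul, hP.qa, hP.qb]
        ring
      have h5 : fderiv ℝ H y (p x • a + q x • b) = (p x ^ 2 + q x ^ 2) * G2 (t, x) := by
        simp only [map_add, map_smul, smul_eq_mul, hDa, hDb, hpy, hqy, hG2]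
        ring
      rw [← h5]
      exact h3
    have h2 := intervalIntegral.integral_eq_sub_of_hasDerivAt (a := 0) (b := 1)
      (fun t _ => h1 t)
      ((Continuous.intervalIntegrable (by
        have := hG2s.continuous.comp (by fun_prop : Continuous fun t : ℝ => (t, x))
        exact continuous_const.mul this)) _ _)
    rw [intervalIntegral.integral_const_mul] at h2
    have h3 : H (x - ((1 - 0) * p x) • a - ((1 - 0) * q x) • b) = 0 := by
      apply haxis
      · simp [hP.pa, hP.pb]
      · simp [hP.qa, hP.qb]
    rw [h3] at h2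
    simp only [hh]
    rw [h2]
    simp
  refine ⟨h, hhs, hmain, ?_, ?_⟩
  · intro θ x
    by_cases hr : p x ^ 2 + q x ^ 2 = 0
    · have h1 : p x = 0 := by nlinarith [sq_nonneg (p x), sq_nonneg (q x)]
      have h2 : q x = 0 := by nlinarith [sq_nonneg (p x), sq_nonneg (q x)]
      have h3 : Rot a b p q θ x = x := by simp [Rot, h1, h2]
      rw [h3]
    · have h1 := hmain (Rot a b p q θ x)
      rw [hinv, hmain x] at h1
      have e1 : p (Rot a b p q θ x) = Real.cos θ * p x - Real.sin θ * q x := by
        simp [Rot, hP.pa, hP.pb]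
        ring
      have e2 : q (Rot a b p q θ x) = Real.sin θ * p x + Real.cos θ * q x := by
        simp [Rot, hP.qa, hP.qb]
        ring
      have e3 : p (Rot a b p q θ x) ^ 2 + q (Rot a b p q θ x) ^ 2 = p x ^ 2 + q x ^ 2 := by
        rw [e1, e2]
        have := Real.sin_sq_add_cos_sq θ
        linear_combination (p x ^ 2 + q x ^ 2) * this
      rw [e3] at h1
      exact (mul_left_cancel₀ hr h1).symm
  · intro x hp hq
    have h1 : k x = fderiv ℝ (fderiv ℝ H) x a a := by
      simp only [hk, hG1, hp]
      simp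
    have h2 : h x = k x / 2 := by
      simp only [hh, hG2, hp, hq]
      simp only [mul_zero, zero_smul, sub_zero]
      rw [intervalIntegral.integral_mul_const]
      simp
      ring
    rw [h2, ← h1]
    ring

end Pool.Agent.Helper64.SY
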